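import Pool.Agent.Q290.SC.Stm

/-!
# Project SC (helper290), job RA: second reduction step of a vector
-/

set_option autoImplicit false

open Pool.Agent.Q290.SC Pool.Agent.H29R2.MG

namespace Pool.Agent.Q68.SC

theorem ra : S_NT → S_RA := by
  intro hNT g q S k i hq hk hi hik w hw hwq ⟨α, z, hz, hαz⟩
  -- the coordinates
  obtain ⟨a, ha⟩ : ∃ a, a = w (Sum.inl k) := ⟨_, rfl⟩
  obtain ⟨c, hc⟩ : ∃ c, c = w (Sum.inl i) := ⟨_, rfl⟩
  obtain ⟨d, hd⟩ : ∃ d, d = w (Sum.inr i) := ⟨_, rfl⟩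
  obtain ⟨β, hβ⟩ : ∃ β, β = z (Sum.inl i) := ⟨_, rfl⟩
  obtain ⟨γ, hγ⟩ : ∃ γ, γ = z (Sum.inr i) := ⟨_, rfl⟩
  obtain ⟨z', hz'⟩ : ∃ z' : VV g, z' = z + (-β) • ve i + (-γ) • vf i := ⟨_, rfl⟩
  have e1 : (ve i : VV g) (Sum.inl i) = 1 := by simp [ve]
  have e2 : (ve i : VV g) (Sum.inr i) = 0 := by simp [ve]
  have f1 : (vf i : VV g) (Sum.inl i) = 0 := by simp [vf]
  have f2 : (vf i : VV g) (Sum.inr i) = 1 := by simp [vf]
  have e3 : (ve i : VV g) (Sum.inl k) = 0 := by simp [ve, hik.symm]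
  have f3 : (vf i : VV g) (Sum.inl k) = 0 := by simp [vf]
  have k1 : (ve k : VV g) (Sum.inl k) = 1 := by simp [ve]
  have hz1 : z' (Sum.inl i) = 0 := by
    rw [hz']
    simp only [Pi.add_apply, Pi.smul_apply, smul_eq_mul, e1, f1]
    rw [hβ]
    ring
  have hz2 : z' (Sum.inr i) = 0 := by
    rw [hz']
    simp only [Pi.add_apply, Pi.smul_apply, smul_eq_mul, e2, f2]
    rw [hγ]
    ring
  have hie : i ∈ S.erase k := Finset.mem_erase.2 ⟨hik, hi⟩
  have hzS : Sup (S.erase k) z' := by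
    rw [hz']
    exact (hz.add ((sup_ve hie).smul _)).add ((sup_vf hie).smul _)
  have hz3 : z' (Sum.inl k) = 0 := (hzS k (Finset.notMem_erase k S)).1
  have hzS' : Sup S z' := hzS.mono (Finset.erase_subset k S)
  obtain ⟨G, hG⟩ : ∃ G, G = om z' w - γ * c := ⟨_, rfl⟩
  have hom : om z w = β * d - γ * c + om z' w := by
    have : z = z' + β • ve i + γ • vf i := by
      rw [hz']
      funext j
      simp only [Pi.add_apply, Pi.smul_apply, smul_eq_mul]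
      ring
    rw [this, om_add_left, om_add_left, om_smul_left, om_smul_left, om_ve, om_vf, ← hc, ← hd]
    ring
  obtain ⟨m, hm⟩ := hwq (Sum.inl k)
  rw [k1, ← ha] at hm
  have ha0 : a ≠ 0 := by
    intro h
    rw [h] at hm
    have h1 : q ∣ 1 := ⟨-m, by linarith⟩
    have := Int.le_of_dvd one_pos h1
    omega
  obtain ⟨t, ht⟩ := hNT a d (q * G) ha0 ⟨α + G, β, -m, by
    rw [hom, ← ha] at hαz
    linear_combination hαz + G * hm + hG⟩
  obtain ⟨X₁, hX₁⟩ : ∃ X₁ : SpG g, X₁ = E (vf i) (t • z') q := ⟨_, rfl⟩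
  obtain ⟨X₂, hX₂⟩ : ∃ X₂ : SpG g, X₂ = T (vf i) (q * t * γ) := ⟨_, rfl⟩
  have h0 : om (vf i) (t • z') = 0 := by
    rw [om_smul_right, om_vf, hz1]
    ring
  obtain ⟨y, hy⟩ : ∃ y, y = ac X₁ w := ⟨_, rfl⟩
  have hy' := hy
  rw [hX₁, ac_E h0] at hy'
  have hy1 : y (Sum.inl k) = a := by
    rw [hy']
    simp only [Pi.add_apply, Pi.smul_apply, smul_eq_mul, hz3, f3]
    rw [ha]
    ring
  have hy2 : y (Sum.inl i) = c := by
    rw [hy']
    simp only [Pi.add_apply, Pi.smul_apply, smul_eq_mul, hz1, f1]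
    rw [hc]
    ring
  have hy3 : y (Sum.inr i) = d + q * t * om z' w := by
    rw [hy']
    simp only [Pi.add_apply, Pi.smul_apply, smul_eq_mul, hz2, f2, om_smul_left]
    rw [hd]
    ring
  refine ⟨X₂ * X₁, ?_, ?_⟩
  · rw [hX₁, hX₂]
    exact mul_mem (T_mem (sup_vf hi) ⟨t * γ, by ring⟩) (E_mem (sup_vf hi) (hzS'.smul t) dvd_rfl)
  · rw [ac_mul, ← hy, hX₂, ac_T, om_vf]
    simp only [Pi.add_apply, Pi.smul_apply, smul_eq_mul, f2, f3, hy1, hy2, hy3]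
    convert ht using 1
    · ring
    · rw [hG]
      ring

end Pool.Agent.Q68.SC
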