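import Mathlib
open Set Filter Topology
noncomputable section
namespace Pool.Agent.Q68.SC

/-- An enumeration of the pairs of rational numbers. -/
def en : ℕ → ℚ × ℚ := Classical.choose (exists_surjective_nat (ℚ × ℚ))

lemma en_surj : Function.Surjective en := Classical.choose_spec (exists_surjective_nat (ℚ × ℚ))

def pl (k : ℕ) : ℝ := ((en k).1 : ℝ)
def pr (k : ℕ) : ℝ := ((en k).2 : ℝ)

/-- Pairs spanning an interval inside `X`. -/
def It (X : Set ℝ) (k : ℕ) : Prop := pl k < pr k ∧ ∀ z, pl k ≤ z → z ≤ pr k → z ∈ X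

/-- Pairs spanning an interval outside `X`. -/
def Gp (X : Set ℝ) (k : ℕ) : Prop := pl k < pr k ∧ ∀ z, pl k ≤ z → z ≤ pr k → z ∉ X

/-- Not separated by the first `n` cuts. -/
def rel (X : Set ℝ) (n : ℕ) (x y : ℝ) : Prop := ∀ k < n, Gp X k → (pr k < x ↔ pr k < y)

/-- The piece of `x` contains an interval. -/
def nonC (X : Set ℝ) (n : ℕ) (x : ℝ) : Prop := ∃ j, It X j ∧ rel X n x (pl j)

variable {X : Set ℝ}

lemma rel_refl (n : ℕ) (x : ℝ) : rel X n x x := fun _ _ _ => Iff.rfl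

lemma rel.symm {n : ℕ} {x y : ℝ} (h : rel X n x y) : rel X n y x := fun k hk hg => (h k hk hg).symm

lemma rel.trans {n : ℕ} {x y z : ℝ} (h : rel X n x y) (h' : rel X n y z) : rel X n x z :=
  fun k hk hg => (h k hk hg).trans (h' k hk hg)

lemma rel.mono {n m : ℕ} {x y : ℝ} (h : rel X n x y) (hm : m ≤ n) : rel X m x y :=
  fun k hk hg => h k (lt_of_lt_of_le hk hm) hg

lemma nonC.of_rel {n : ℕ} {x y : ℝ} (h : nonC X n x) (hr : rel X n x y) : nonC X n y := by
  obtain ⟨j, hj, hrj⟩ := h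
  exact ⟨j, hj, hr.symm.trans hrj⟩

lemma nonC.mono {n m : ℕ} {x : ℝ} (h : nonC X n x) (hm : m ≤ n) : nonC X m x := by
  obtain ⟨j, hj, hrj⟩ := h
  exact ⟨j, hj, hrj.mono hm⟩

lemma pl_mem {k : ℕ} (h : It X k) : pl k ∈ X := h.2 _ le_rfl h.1.le
lemma pr_mem {k : ℕ} (h : It X k) : pr k ∈ X := h.2 _ h.1.le le_rfl

lemma Gp.side {k : ℕ} (h : Gp X k) {x : ℝ} (hx : x ∈ X) : x < pl k ∨ pr k < x := by
  by_contra hc
  push Not at hc
  exact h.2 x hc.1 hc.2 hx

/-- Convexity of the pieces. -/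
lemma rel.between {n : ℕ} {x y z : ℝ} (_hy : y ∈ X) (h : rel X n x y) (h1 : x ≤ z) (h2 : z ≤ y) :
    rel X n x z := by
  intro k hk hg
  constructor
  · intro hx; linarith
  · intro hz
    by_contra hx
    have hny : ¬ pr k < y := fun h3 => hx ((h k hk hg).2 h3)
    exact hny (by linarith)

/-- Connected parts of `X` are not separated. -/
lemma rel_of_Icc {n : ℕ} {x y : ℝ} (hxy : x ≤ y) (h : ∀ z, x ≤ z → z ≤ y → z ∈ X) :
    rel X n x y := by
  intro k _ hg
  constructor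
  · intro hx; linarith
  · intro hy
    by_contra hx
    push Not at hx
    exact hg.2 (pr k) hg.1.le le_rfl (h _ hx hy.le)

/-- Rational pairs inside an open interval. -/
lemma exists_pair {u v : ℝ} (h : u < v) : ∃ k, u < pl k ∧ pl k < pr k ∧ pr k < v := by
  obtain ⟨p, hp1, hp2⟩ := exists_rat_btwn h
  obtain ⟨q, hq1, hq2⟩ := exists_rat_btwn hp2
  obtain ⟨k, hk⟩ := en_surj (p, q)
  refine ⟨k, ?_, ?_, ?_⟩
  · unfold pl; rw [hk]; exact hp1
  · unfold pl pr; rw [hk]; exact hq1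
  · unfold pr; rw [hk]; exact hq2

/-- The finitely many pieces of a level. -/
lemma exists_N (X : Set ℝ) (n : ℕ) : ∃ N : ℕ, ∀ x, nonC X n x →
    ∃ j < N, It X j ∧ rel X n x (pl j) := by
  classical
  let sg : ℝ → (Fin n → Prop) := fun x k => Gp X k ∧ pr k < x
  have key : ∀ x y, sg x = sg y → rel X n x y := by
    intro x y hxy k hk hg
    have := congrFun hxy ⟨k, hk⟩
    simp only [sg, eq_iff_iff] at this
    constructor
    · intro h; exact (this.1 ⟨hg, h⟩).2
    · intro h; exact (this.2 ⟨hg, h⟩).2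
  have key2 : ∀ x y, rel X n x y → sg x = sg y := by
    intro x y hr
    ext k
    simp only [sg]
    constructor
    · intro h; exact ⟨h.1, (hr k k.2 h.1).1 h.2⟩
    · intro h; exact ⟨h.1, (hr k k.2 h.1).2 h.2⟩
  let J : (Fin n → Prop) → ℕ := fun σ =>
    if h : ∃ j, It X j ∧ sg (pl j) = σ then h.choose else 0
  obtain ⟨M, hM⟩ : ∃ M, ∀ σ, J σ ≤ M := by
    obtain ⟨M, hM⟩ := (Set.finite_range J).bddAbove
    exact ⟨M, fun σ => hM ⟨σ, rfl⟩⟩
  refine ⟨M + 1, fun x hx => ?_⟩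
  obtain ⟨j, hj, hr⟩ := hx
  have hex : ∃ j, It X j ∧ sg (pl j) = sg x := ⟨j, hj, (key2 _ _ hr).symm⟩
  refine ⟨J (sg x), by have := hM (sg x); omega, ?_⟩
  have : J (sg x) = hex.choose := by simp only [J]; rw [dif_pos hex]
  rw [this]
  exact ⟨hex.choose_spec.1, key _ _ hex.choose_spec.2.symm⟩

/-- The thresholds. -/
def MM (X : Set ℝ) : ℕ → ℕ
  | 0 => Classical.choose (exists_N X 0)
  | n + 1 => MM X n + 1 + Classical.choose (exists_N X (n + 1))

lemma MM_lt (X : Set ℝ) (n : ℕ) : MM X n < MM X (n + 1) := by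
  show MM X n < MM X n + 1 + _
  omega

lemma MM_spec (n : ℕ) {x : ℝ} (hx : nonC X n x) : ∃ j < MM X n, It X j ∧ rel X n x (pl j) := by
  obtain ⟨j, hj, h1, h2⟩ := Classical.choose_spec (exists_N X n) x hx
  refine ⟨j, ?_, h1, h2⟩
  cases n with
  | zero => exact hj
  | succ n =>
    show j < MM X n + 1 + _
    omega

/-- The scales. -/
def xi (X : Set ℝ) (n : ℕ) : ℝ := 16 * (1 / 1024 : ℝ) ^ (MM X n)

lemma xi_pos (X : Set ℝ) (n : ℕ) : 0 < xi X n := by unfold xi; positivity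

lemma xi_succ (X : Set ℝ) (n : ℕ) : xi X (n + 1) ≤ xi X n / 1024 := by
  unfold xi
  have h : MM X n + 1 ≤ MM X (n + 1) := MM_lt X n
  have := pow_le_pow_of_le_one (by norm_num : (0:ℝ) ≤ 1 / 1024) (by norm_num) h
  rw [pow_succ] at this
  linarith

lemma xi_add (X : Set ℝ) (n j : ℕ) : xi X (n + j) ≤ xi X n * (1 / 1024 : ℝ) ^ j := by
  induction j with
  | zero => simp
  | succ j ih =>
    have := xi_succ X (n + j)
    rw [pow_succ, ← add_assoc]
    linarith

lemma xi_anti (X : Set ℝ) : Antitone (xi X) := by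
  refine antitone_nat_of_succ_le fun n => ?_
  have := xi_succ X n
  have := xi_pos X n
  linarith

lemma xi_summable (X : Set ℝ) (n : ℕ) : Summable (fun j => xi X (n + j)) := by
  refine Summable.of_nonneg_of_le (fun j => (xi_pos X _).le) (fun j => xi_add X n j) ?_
  exact (summable_geometric_of_lt_one (by norm_num) (by norm_num)).mul_left _

lemma xi_tail (X : Set ℝ) (n : ℕ) : ∑' j, xi X (n + 1 + j) ≤ xi X n / 512 := by
  have h1 : ∀ j, xi X (n + 1 + j) ≤ (xi X n / 1024) * (1 / 1024 : ℝ) ^ j := fun j =>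
    (xi_add X (n + 1) j).trans (mul_le_mul_of_nonneg_right (xi_succ X n) (by positivity))
  have h2 : Summable (fun j : ℕ => (xi X n / 1024) * (1 / 1024 : ℝ) ^ j) :=
    (summable_geometric_of_lt_one (by norm_num) (by norm_num)).mul_left _
  calc ∑' j, xi X (n + 1 + j) ≤ ∑' j : ℕ, (xi X n / 1024) * (1 / 1024 : ℝ) ^ j :=
        (xi_summable X (n + 1)).tsum_le_tsum h1 h2
    _ = (xi X n / 1024) * (1 - 1 / 1024)⁻¹ := by
        rw [tsum_mul_left, tsum_geometric_of_lt_one (by norm_num) (by norm_num)]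
    _ ≤ xi X n / 512 := by
        have := xi_pos X n
        norm_num
        linarith

lemma xi_total (X : Set ℝ) (n : ℕ) : ∑' j, xi X (n + j) ≤ 2 * xi X n := by
  rw [(xi_summable X n).tsum_eq_zero_add]
  have h := xi_tail X n
  have e : (fun j => xi X (n + (j + 1))) = fun j => xi X (n + 1 + j) := by
    ext j; congr 1; ring
  rw [e]
  have := xi_pos X n
  simp only [add_zero]
  linarith

end Pool.Agent.Q68.SC
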