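import Pool.Agent.Q68.SC.Base
import Pool.Agent.H812R3.CantorChar
open Set Filter Topology
open Pool.Agent.H812R3.CantorChar (Good)
noncomputable section
namespace Pool.Agent.Q68.SC

/-- The ramp across the `k`-th pair. -/
def rp (k : ℕ) (x : ℝ) : ℝ := max 0 (min 1 ((x - pl k) / (pr k - pl k)))

lemma rp_cont (k : ℕ) : Continuous (rp k) := by unfold rp; fun_prop

lemma rp_nonneg (k : ℕ) (x : ℝ) : 0 ≤ rp k x := le_max_left _ _

lemma rp_le_one (k : ℕ) (x : ℝ) : rp k x ≤ 1 := max_le zero_le_one (min_le_left _ _)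

lemma rp_mono {k : ℕ} (h : pl k < pr k) : Monotone (rp k) := by
  intro x y hxy
  unfold rp
  have : 0 < pr k - pl k := by linarith
  gcongr

lemma rp_zero {k : ℕ} (h : pl k < pr k) {x : ℝ} (hx : x ≤ pl k) : rp k x = 0 := by
  unfold rp
  have : (x - pl k) / (pr k - pl k) ≤ 0 := div_nonpos_of_nonpos_of_nonneg (by linarith) (by linarith)
  rw [max_eq_left]
  exact (min_le_right _ _).trans this

lemma rp_one {k : ℕ} (h : pl k < pr k) {x : ℝ} (hx : pr k ≤ x) : rp k x = 1 := by
  unfold rp
  have : 1 ≤ (x - pl k) / (pr k - pl k) := by rw [le_div_iff₀ (by linarith)]; linarith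
  rw [min_eq_left this, max_eq_right zero_le_one]

/-- The active cuts. -/
def act (X : Set ℝ) (k : ℕ) : Prop :=
  Gp X k ∧ ∃ u ∈ X, ∃ v ∈ X, u < pl k ∧ pr k < v ∧ rel X k u v ∧ nonC X k u

open Classical in
/-- The weights. -/
def wt (X : Set ℝ) (k : ℕ) : ℝ :=
  (if It X k then (1 / 1024 : ℝ) ^ k else 0) + (if act X k then 4 * xi X (k + 1) else 0)

variable {X : Set ℝ}

lemma wt_nonneg (k : ℕ) : 0 ≤ wt X k := by
  unfold wt
  have := xi_pos X (k + 1)
  split_ifs <;> positivity

lemma wt_le (k : ℕ) : wt X k ≤ (1 / 1024 : ℝ) ^ k + 4 * xi X (k + 1) := by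
  unfold wt
  have := xi_pos X (k + 1)
  have h : (0:ℝ) ≤ (1 / 1024 : ℝ) ^ k := by positivity
  split_ifs <;> linarith

lemma wt_pair {k : ℕ} (h : wt X k ≠ 0) : pl k < pr k := by
  unfold wt at h
  by_cases h1 : It X k
  · exact h1.1
  · by_cases h2 : act X k
    · exact h2.1.1
    · rw [if_neg h1, if_neg h2] at h; simp at h

lemma geo_summable : Summable (fun k : ℕ => (1 / 1024 : ℝ) ^ k) :=
  summable_geometric_of_lt_one (by norm_num) (by norm_num)

lemma xi_summable' (X : Set ℝ) : Summable (fun k => 4 * xi X (k + 1)) := by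
  have := (xi_summable X 1).mul_left 4
  refine this.congr fun k => ?_
  rw [add_comm 1 k]

lemma wt_summable : Summable (wt X) :=
  Summable.of_nonneg_of_le wt_nonneg wt_le (geo_summable.add (xi_summable' X))

/-- The monotone part of the embedding. -/
def HH (X : Set ℝ) (x : ℝ) : ℝ := ∑' k, wt X k * rp k x

lemma HH_summable (x : ℝ) : Summable (fun k => wt X k * rp k x) :=
  Summable.of_nonneg_of_le (fun k => mul_nonneg (wt_nonneg k) (rp_nonneg k x))
    (fun k => mul_le_of_le_one_right (wt_nonneg k) (rp_le_one k x)) wt_summable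

lemma HH_cont : Continuous (HH X) := by
  refine continuous_tsum (u := wt X) (fun k => continuous_const.mul (rp_cont k)) wt_summable
    fun k x => ?_
  rw [Real.norm_of_nonneg (mul_nonneg (wt_nonneg k) (rp_nonneg k x))]
  exact mul_le_of_le_one_right (wt_nonneg k) (rp_le_one k x)

lemma term_mono (k : ℕ) {x y : ℝ} (h : x ≤ y) : wt X k * rp k x ≤ wt X k * rp k y := by
  by_cases hw : wt X k = 0
  · rw [hw]; simp
  · exact mul_le_mul_of_nonneg_left (rp_mono (wt_pair hw) h) (wt_nonneg k)

lemma HH_mono : Monotone (HH X) := fun _ _ h =>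
  (HH_summable _).tsum_le_tsum (fun k => term_mono k h) (HH_summable _)

lemma HH_lower (k : ℕ) {x y : ℝ} (h : x ≤ y) :
    wt X k * (rp k y - rp k x) ≤ HH X y - HH X x := by
  unfold HH
  rw [← (HH_summable y).tsum_sub (HH_summable x)]
  have hs : Summable (fun k => wt X k * rp k y - wt X k * rp k x) :=
    (HH_summable y).sub (HH_summable x)
  have := hs.le_tsum k (fun j _ => sub_nonneg.2 (term_mono j h))
  linarith

lemma HH_upper (n : ℕ) {x y : ℝ} (hxy : x ≤ y)
    (h1 : ∀ k, k < MM X n → It X k → rp k y = rp k x)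
    (h2 : ∀ k, k < n → act X k → rp k y = rp k x) : HH X y - HH X x ≤ xi X n / 4 := by
  classical
  have d0 : ∀ k, pl k < pr k → 0 ≤ rp k y - rp k x := fun k hk => sub_nonneg.2 (rp_mono hk hxy)
  have d1 : ∀ k, rp k y - rp k x ≤ 1 := fun k => by
    linarith [rp_le_one k y, rp_nonneg k x]
  let f : ℕ → ℝ := fun k => if k < MM X n then 0 else (1 / 1024 : ℝ) ^ k
  let g : ℕ → ℝ := fun k => if k < n then 0 else 4 * xi X (k + 1)
  have hf : Summable f := by
    refine Summable.of_nonneg_of_le (fun k => ?_) (fun k => ?_) geo_summable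
    · simp only [f]; split_ifs <;> positivity
    · simp only [f]; split_ifs
      · positivity
      · exact le_rfl
  have hg : Summable g := by
    refine Summable.of_nonneg_of_le (fun k => ?_) (fun k => ?_) (xi_summable' X)
    · simp only [g]; have := xi_pos X (k + 1); split_ifs <;> positivity
    · simp only [g]; have := xi_pos X (k + 1); split_ifs
      · positivity
      · exact le_rfl
  have key : ∀ k, wt X k * rp k y - wt X k * rp k x ≤ f k + g k := by
    intro k
    rw [← mul_sub]
    unfold wt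
    have hx := xi_pos X (k + 1)
    have a1 : (if It X k then (1 / 1024 : ℝ) ^ k else 0) * (rp k y - rp k x) ≤ f k := by
      by_cases hI : It X k
      · rw [if_pos hI]
        simp only [f]
        split_ifs with hk
        · rw [h1 k hk hI]; simp
        · exact mul_le_of_le_one_right (by positivity) (d1 k)
      · rw [if_neg hI, zero_mul]; simp only [f]; split_ifs <;> positivity
    have a2 : (if act X k then 4 * xi X (k + 1) else 0) * (rp k y - rp k x) ≤ g k := by
      by_cases hI : act X k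
      · rw [if_pos hI]
        simp only [g]
        split_ifs with hk
        · rw [h2 k hk hI]; simp
        · exact mul_le_of_le_one_right (by positivity) (d1 k)
      · rw [if_neg hI, zero_mul]; simp only [g]; split_ifs <;> positivity
    rw [add_mul]; exact add_le_add a1 a2
  have e1 : ∑' k, f k = (1 / 1024 : ℝ) ^ (MM X n) * (1 - 1 / 1024)⁻¹ := by
    rw [← hf.sum_add_tsum_nat_add (MM X n)]
    have z : ∑ k ∈ Finset.range (MM X n), f k = 0 :=
      Finset.sum_eq_zero fun k hk => by simp only [f]; rw [if_pos (Finset.mem_range.1 hk)]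
    rw [z, zero_add]
    have : (fun k => f (k + MM X n)) = fun k => (1 / 1024 : ℝ) ^ (MM X n) * (1 / 1024 : ℝ) ^ k := by
      ext k; simp only [f]; rw [if_neg (by omega), pow_add, mul_comm]
    rw [this, tsum_mul_left, tsum_geometric_of_lt_one (by norm_num) (by norm_num)]
  have e2 : ∑' k, g k ≤ 4 * (xi X n / 512) := by
    rw [← hg.sum_add_tsum_nat_add n]
    have z : ∑ k ∈ Finset.range n, g k = 0 :=
      Finset.sum_eq_zero fun k hk => by simp only [g]; rw [if_pos (Finset.mem_range.1 hk)]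
    rw [z, zero_add]
    have : (fun k => g (k + n)) = fun k => 4 * xi X (n + 1 + k) := by
      ext k; simp only [g]; rw [if_neg (by omega)]; congr 2; ring
    rw [this, tsum_mul_left]
    exact mul_le_mul_of_nonneg_left (xi_tail X n) (by norm_num)
  unfold HH
  rw [← (HH_summable y).tsum_sub (HH_summable x)]
  calc ∑' k, (wt X k * rp k y - wt X k * rp k x) ≤ ∑' k, (f k + g k) :=
        ((HH_summable y).sub (HH_summable x)).tsum_le_tsum key (hf.add hg)
    _ = ∑' k, f k + ∑' k, g k := hf.tsum_add hg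
    _ ≤ xi X n / 4 := by
        rw [e1]
        have hx := xi_pos X n
        have : (1 / 1024 : ℝ) ^ (MM X n) = xi X n / 16 := by unfold xi; ring
        rw [this]
        norm_num
        linarith

lemma act_eq {n k : ℕ} (hk : k < n) (ha : act X k) {x y : ℝ} (hx : x ∈ X) (hy : y ∈ X)
    (hr : rel X n x y) : rp k y = rp k x := by
  have hp := ha.1.1
  rcases ha.1.side hx with h | h
  · have : ¬ pr k < y := fun h5 => by have := (hr k hk ha.1).2 h5; linarith
    rcases ha.1.side hy with h6 | h6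
    · rw [rp_zero hp h.le, rp_zero hp h6.le]
    · exact absurd h6 this
  · have : pr k < y := (hr k hk ha.1).1 h
    rw [rp_one hp h.le, rp_one hp this.le]

/-- A large interval near every point of a piece which is not a Cantor set. -/
lemma near {n : ℕ} {x : ℝ} (hx : x ∈ X) (h : nonC X n x) :
    ∃ j, j < MM X n ∧ It X j ∧ rel X n x (pl j) ∧
      (x < pl j → HH X (pl j) - HH X x ≤ xi X n / 4) ∧
      (pr j < x → HH X x - HH X (pr j) ≤ xi X n / 4) := by
  classical
  let S : Finset ℕ := (Finset.range (MM X n)).filter fun j => It X j ∧ rel X n x (pl j)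
  have hS : S.Nonempty := by
    obtain ⟨j, hj, h1, h2⟩ := MM_spec n h
    exact ⟨j, by simp only [S, Finset.mem_filter, Finset.mem_range]; exact ⟨hj, h1, h2⟩⟩
  obtain ⟨j, hj, hmin⟩ := Finset.exists_min_image S
    (fun j => max (max (pl j - x) (x - pr j)) 0) hS
  simp only [S, Finset.mem_filter, Finset.mem_range] at hj hmin
  obtain ⟨hjM, hI, hr⟩ := hj
  have hplX := pl_mem hI
  have hprX := pr_mem hI
  have hr' : rel X n x (pr j) := hr.trans (rel_of_Icc hI.1.le fun z h1 h2 => hI.2 z h1 h2)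
  refine ⟨j, hjM, hI, hr, fun hlt => ?_, fun hlt => ?_⟩
  · refine HH_upper n hlt.le ?_ (fun k hk ha => act_eq hk ha hx hplX hr)
    intro k hk hIk
    rcases le_or_gt (pr k) x with h1 | h1
    · rw [rp_one hIk.1 h1, rp_one hIk.1 (h1.trans hlt.le)]
    rcases le_or_gt (pl j) (pl k) with h2 | h2
    · rw [rp_zero hIk.1 h2, rp_zero hIk.1 (hlt.le.trans h2)]
    exfalso
    have hz1 : rel X n x (max (pl k) x) :=
      hr.between hplX (le_max_right _ _) (max_le h2.le hlt.le)
    have hz2 : rel X n (pl k) (max (pl k) x) :=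
      rel_of_Icc (le_max_left _ _) fun z a1 a2 => hIk.2 z a1 (a2.trans (max_le hIk.1.le h1.le))
    have hm := hmin k ⟨hk, hIk, hz1.trans hz2.symm⟩
    have e1 : max (max (pl j - x) (x - pr j)) 0 = pl j - x := by
      rw [max_eq_left, max_eq_left]
      · linarith [hI.1]
      · exact le_max_of_le_left (by linarith)
    rw [e1] at hm
    have e2 : max (max (pl k - x) (x - pr k)) 0 < pl j - x := by
      refine max_lt (max_lt (by linarith) (by linarith)) (by linarith)
    linarith
  · refine HH_upper n hlt.le ?_ (fun k hk ha => act_eq hk ha hprX hx hr'.symm)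
    intro k hk hIk
    rcases le_or_gt x (pl k) with h1 | h1
    · rw [rp_zero hIk.1 h1, rp_zero hIk.1 (hlt.le.trans h1)]
    rcases le_or_gt (pr k) (pr j) with h2 | h2
    · rw [rp_one hIk.1 h2, rp_one hIk.1 (h2.trans hlt.le)]
    exfalso
    have hz1 : rel X n (pr j) (min (pr k) x) :=
      hr'.symm.between hx (le_min h2.le hlt.le) (min_le_right _ _)
    have hz2 : rel X n (pl k) (min (pr k) x) :=
      rel_of_Icc (le_min hIk.1.le h1.le) fun z a1 a2 => hIk.2 z a1 (a2.trans (min_le_left _ _))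
    have hm := hmin k ⟨hk, hIk, hr'.trans (hz1.trans hz2.symm)⟩
    have e1 : max (max (pl j - x) (x - pr j)) 0 = x - pr j := by
      rw [max_eq_left, max_eq_right]
      · linarith [hI.1]
      · exact le_max_of_le_right (by linarith)
    rw [e1] at hm
    have e2 : max (max (pl k - x) (x - pr k)) 0 < x - pr j := by
      refine max_lt (max_lt (by linarith) (by linarith)) (by linarith)
    linarith

/-- The monotone part is constant on the Cantor pieces. -/
lemma HH_const {m : ℕ} {x y : ℝ} (hx : x ∈ X) (hy : y ∈ X) (hr : rel X m x y)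
    (hC : ¬ nonC X m x) (hxy : x ≤ y) : HH X x = HH X y := by
  unfold HH
  congr 1
  ext k
  by_cases hw : wt X k = 0
  · rw [hw]; simp
  have hp := wt_pair hw
  congr 1
  by_cases hI : It X k
  · rcases le_or_gt (pr k) x with h1 | h1
    · rw [rp_one hp h1, rp_one hp (h1.trans hxy)]
    rcases le_or_gt y (pl k) with h2 | h2
    · rw [rp_zero hp h2, rp_zero hp (hxy.trans h2)]
    exfalso
    apply hC
    have hz1 : rel X m x (max (pl k) x) := hr.between hy (le_max_right _ _) (max_le h2.le hxy)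
    have hz2 : rel X m (pl k) (max (pl k) x) :=
      rel_of_Icc (le_max_left _ _) fun z a1 a2 => hI.2 z a1 (a2.trans (max_le hp.le h1.le))
    exact ⟨k, hI, hz1.trans hz2.symm⟩
  · have ha : act X k := by
      by_contra hna
      apply hw; unfold wt; rw [if_neg hI, if_neg hna]; simp
    rcases lt_or_ge k m with hk | hk
    · exact (act_eq hk ha hx hy hr).symm
    · rcases ha.1.side hx with h1 | h1
      · rcases ha.1.side hy with h2 | h2
        · rw [rp_zero hp h1.le, rp_zero hp h2.le]
        · exfalso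
          obtain ⟨hG, u, hu, v, hv, hu1, hv1, huv, hnC⟩ := ha
          apply hC
          have hxu : rel X m u x := by
            intro k' hk' hg'
            constructor
            · intro h5
              exact (hr k' hk' hg').2 (by linarith)
            · intro h5
              exact (huv k' (lt_of_lt_of_le hk' hk) hg').2 (by linarith)
          exact (hnC.mono hk).of_rel hxu
      · rw [rp_one hp h1.le, rp_one hp (h1.le.trans hxy)]

/-- Separation by the first cut. -/
lemma first_cut {x y : ℝ} (hx : x ∈ X) {k₀ : ℕ} (h : Gp X k₀ ∧ x < pl k₀ ∧ pr k₀ < y) :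
    ∃ k, k ≤ k₀ ∧ Gp X k ∧ x < pl k ∧ pr k < y ∧ rel X k x y := by
  classical
  have hex : ∃ k, Gp X k ∧ x < pl k ∧ pr k < y := ⟨k₀, h⟩
  obtain ⟨h1, h2, h3⟩ := Nat.find_spec hex
  refine ⟨Nat.find hex, Nat.find_min' hex h, h1, h2, h3, ?_⟩
  intro k' hk' hg'
  constructor
  · intro h5; linarith [h1.1]
  · intro h5
    by_contra h6
    rcases hg'.side hx with h7 | h7
    · exact Nat.find_min hex hk' ⟨hg', h7, h5⟩
    · exact h6 h7

lemma jump_act {x y : ℝ} (hx : x ∈ X) (hy : y ∈ X) {k : ℕ} (hG : Gp X k) (h1 : x < pl k)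
    (h2 : pr k < y) (hr : rel X k x y) (hn : nonC X k x) :
    4 * xi X (k + 1) ≤ HH X y - HH X x := by
  have ha : act X k := ⟨hG, x, hx, y, hy, h1, h2, hr, hn⟩
  have hl := HH_lower (X := X) k (show x ≤ y by linarith [hG.1])
  rw [rp_one hG.1 h2.le, rp_zero hG.1 h1.le] at hl
  have : 4 * xi X (k + 1) ≤ wt X k := by
    unfold wt
    rw [if_pos ha]
    have h5 : (0:ℝ) ≤ (1 / 1024 : ℝ) ^ k := by positivity
    split_ifs <;> linarith
  linarith

lemma jump_It {x y : ℝ} {k : ℕ} (hI : It X k) (h1 : x ≤ pl k) (h2 : pr k ≤ y) :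
    (1 / 1024 : ℝ) ^ k ≤ HH X y - HH X x := by
  have hl := HH_lower (X := X) k (show x ≤ y by linarith [hI.1])
  rw [rp_one hI.1 h2, rp_zero hI.1 h1] at hl
  have : (1 / 1024 : ℝ) ^ k ≤ wt X k := by
    unfold wt
    rw [if_pos hI]
    have := xi_pos X (k + 1)
    split_ifs <;> linarith
  linarith

lemma long_It {n j : ℕ} (hj : j < MM X n) (hI : It X j) :
    4 * xi X n ≤ HH X (pr j) - HH X (pl j) := by
  refine le_trans ?_ (jump_It hI le_rfl le_rfl)
  unfold xi
  have h := pow_le_pow_of_le_one (by norm_num : (0:ℝ) ≤ 1 / 1024) (by norm_num)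
    (show j + 1 ≤ MM X n from hj)
  rw [pow_succ] at h
  have : (0:ℝ) ≤ (1 / 1024 : ℝ) ^ j := by positivity
  linarith

/-- Nearby points of `X` are in the same piece. -/
lemma rel_nhds (X : Set ℝ) (m : ℕ) :
    ∃ ε : ℝ, 0 < ε ∧ ∀ y ∈ X, ∀ z ∈ X, |y - z| < ε → rel X m z y := by
  induction m with
  | zero => exact ⟨1, one_pos, fun y _ z _ _ k hk => absurd hk (Nat.not_lt_zero k)⟩
  | succ m ih =>
    obtain ⟨ε, hε, h⟩ := ih
    by_cases hG : Gp X m
    · refine ⟨min ε (pr m - pl m), lt_min hε (by linarith [hG.1]), fun y hy z hz hyz k hk hg => ?_⟩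
      rcases Nat.lt_succ_iff_lt_or_eq.1 hk with hk' | rfl
      · exact h y hy z hz (hyz.trans_le (min_le_left _ _)) k hk' hg
      · have hd := abs_lt.1 (hyz.trans_le (min_le_right _ _))
        rcases hg.side hy with h1 | h1 <;> rcases hg.side hz with h2 | h2
        · constructor <;> intro h3 <;> linarith [hg.1]
        · exfalso; linarith
        · exfalso; linarith
        · exact ⟨fun _ => h1, fun _ => h2⟩
    · refine ⟨ε, hε, fun y hy z hz hyz k hk hg => ?_⟩
      rcases Nat.lt_succ_iff_lt_or_eq.1 hk with hk' | rfl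
      · exact h y hy z hz hyz k hk' hg
      · exact absurd hg hG

/-- The piece of `x` at level `m`. -/
def cls (X : Set ℝ) (m : ℕ) (x : ℝ) : Set ℝ := {y | y ∈ X ∧ rel X m x y}

lemma cls_closed (hX : IsClosed X) (m : ℕ) {x : ℝ} : IsClosed (cls X m x) := by
  have e : cls X m x = X ∩ ⋂ k ∈ {k | k < m ∧ Gp X k},
      {y | (pr k < x → pr k ≤ y) ∧ (¬ pr k < x → y ≤ pl k)} := by
    ext y
    simp only [cls, mem_inter_iff, mem_iInter, mem_ofPred_eq]
    constructor
    · rintro ⟨hy, hr⟩
      refine ⟨hy, fun k hk => ⟨fun h => ((hr k hk.1 hk.2).1 h).le, fun h => ?_⟩⟩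
      rcases hk.2.side hy with h1 | h1
      · exact h1.le
      · exact absurd ((hr k hk.1 hk.2).2 h1) h
    · rintro ⟨hy, hr⟩
      refine ⟨hy, fun k hk hg => ⟨fun h => ?_, fun h => ?_⟩⟩
      · rcases hg.side hy with h1 | h1
        · have := (hr k ⟨hk, hg⟩).1 h; linarith [hg.1]
        · exact h1
      · by_contra h2
        have := (hr k ⟨hk, hg⟩).2 h2
        linarith [hg.1]
  rw [e]
  refine hX.inter (isClosed_biInter fun k _ => ?_)
  by_cases h : pr k < x
  · have : {y : ℝ | (pr k < x → pr k ≤ y) ∧ (¬ pr k < x → y ≤ pl k)} = Ici (pr k) := by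
      ext y; simp [h]
    rw [this]; exact isClosed_Ici
  · have : {y : ℝ | (pr k < x → pr k ≤ y) ∧ (¬ pr k < x → y ≤ pl k)} = Iic (pl k) := by
      ext y; simp [h]
    rw [this]; exact isClosed_Iic

lemma cls_good (hX : IsCompact X) (hp : ∀ z ∈ X, ∀ ε > 0, ∃ y ∈ X, y ≠ z ∧ |y - z| < ε)
    {m : ℕ} {x : ℝ} (hx : x ∈ X) (hC : ¬ nonC X m x) : Good (cls X m x) := by
  refine ⟨hX.of_isClosed_subset (cls_closed hX.isClosed m) fun y hy => hy.1,
    ⟨x, hx, rel_refl m x⟩, ?_, ?_⟩
  · rintro z ⟨hz, hrz⟩ ε hε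
    obtain ⟨ε', hε', h⟩ := rel_nhds X m
    obtain ⟨y, hy, h1, h2⟩ := hp z hz (min ε ε') (lt_min hε hε')
    exact ⟨y, ⟨hy, hrz.trans (h y hy z hz (h2.trans_le (min_le_right _ _)))⟩, h1,
      h2.trans_le (min_le_left _ _)⟩
  · intro u v huv
    by_contra hc
    push Not at hc
    obtain ⟨k, hk1, hk2, hk3⟩ := exists_pair huv
    apply hC
    refine ⟨k, ⟨hk2, fun z h1 h2 => (hc z (by linarith) (by linarith)).1⟩, ?_⟩
    exact (hc (pl k) hk1 (by linarith)).2

end Pool.Agent.Q68.SC
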