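import Pool.Agent.Q68.SC.Tau
open Set Filter Topology
open Pool.Agent.H812R3.CantorChar (Good)
noncomputable section
namespace Pool.Agent.Q68.SC

variable {X : Set ℝ}

/-- The standing assumptions. -/
structure CP (X : Set ℝ) : Prop where
  comp : IsCompact X
  perf : ∀ z ∈ X, ∀ ε > 0, ∃ y ∈ X, y ≠ z ∧ |y - z| < ε

lemma CP.good (h : CP X) {m : ℕ} {x : ℝ} (hx : x ∈ X) (hC : ¬ nonC X m x) :
    Good (cls X m x) := cls_good h.comp h.perf hx hC

lemma cls_const {m : ℕ} {x y : ℝ} (hx : x ∈ X) (hC : ¬ nonC X m x) (hy : y ∈ cls X m x) :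
    HH X y = HH X x := by
  rcases le_total x y with h | h
  · exact (HH_const hx hy.1 hy.2 hC h).symm
  · exact HH_const hy.1 hx hy.2.symm (fun h5 => hC (h5.of_rel hy.2.symm)) h

/-- The correction of a point in a Cantor piece. -/
lemma ph_tau (h : CP X) {x : ℝ} (hx : x ∈ X) (hn : ¬ ∀ m, nonC X m x) :
    ∃ m, (∀ k < m, nonC X k x) ∧ ¬ nonC X m x ∧ (∃ δ, ph X x = tau X m δ) ∧
      (∀ δ, ∃ y ∈ cls X m x, ph X y = tau X m δ) ∧ InjOn (ph X) (cls X m x) ∧
      ContinuousOn (ph X) (cls X m x) := by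
  obtain ⟨m, h1, h2, h3⟩ := ph_spec hn
  obtain ⟨g1, g2, g3⟩ := fm_spec (h.good hx h2) (X := X) m
  have hxc : x ∈ cls X m x := ⟨hx, rel_refl m x⟩
  refine ⟨m, h1, h2, ?_, ?_, ?_, ?_⟩
  · have : fm X (cls X m x) m x ∈ range (tau X m) := by rw [← g3]; exact ⟨x, hxc, rfl⟩
    obtain ⟨δ, hδ⟩ := this
    exact ⟨δ, by rw [h3 x hxc, hδ]⟩
  · intro δ
    have : tau X m δ ∈ fm X (cls X m x) m '' cls X m x := by rw [g3]; exact ⟨δ, rfl⟩
    obtain ⟨y, hy, hyδ⟩ := this
    exact ⟨y, hy, by rw [h3 y hy, hyδ]⟩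
  · intro y hy z hz hyz
    rw [h3 y hy, h3 z hz] at hyz
    exact g2 hy hz hyz
  · exact g1.congr fun y hy => h3 y hy

lemma ph_nonneg (h : CP X) {x : ℝ} (hx : x ∈ X) : 0 ≤ ph X x := by
  by_cases hn : ∀ m, nonC X m x
  · rw [ph_zero hn]
  · obtain ⟨m, -, -, ⟨δ, hδ⟩, -⟩ := ph_tau h hx hn
    rw [hδ]; exact tau_nonneg m δ

lemma ph_small (h : CP X) {x : ℝ} (hx : x ∈ X) {n : ℕ} (hn : nonC X n x) :
    ph X x ≤ xi X n / 512 := by
  by_cases ha : ∀ m, nonC X m x
  · rw [ph_zero ha]; have := xi_pos X n; positivity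
  · obtain ⟨m, h1, h2, ⟨δ, hδ⟩, -⟩ := ph_tau h hx ha
    rw [hδ]
    have hm : n + 1 ≤ m := by
      by_contra hc
      exact h2 (hn.mono (by omega))
    have a1 := tau_le (X := X) m δ
    have a2 := xi_anti X hm
    have a3 := xi_succ X n
    linarith

lemma hm_of_Icc {j : ℕ} (hj : It X j) {z : ℝ} (h1 : pl j ≤ z) (h2 : z ≤ pr j) :
    hm X z = HH X z := by
  unfold hm
  rw [ph_zero, add_zero]
  intro m
  exact ⟨j, hj, (rel_of_Icc h1 fun w a1 a2 => hj.2 w a1 (a2.trans h2)).symm⟩

/-- Injectivity of the embedding. -/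
lemma hm_inj (h : CP X) : InjOn (hm X) X := by
  have key : ∀ x ∈ X, ∀ y ∈ X, x < y → hm X x ≠ hm X y := by
    intro x hx y hy hxy heq
    by_cases ha : ∀ m, nonC X m x
    · -- the point `x` is in no Cantor piece
      have hpos : 0 < HH X y - HH X x := by
        by_cases hI : ∀ z, x ≤ z → z ≤ y → z ∈ X
        · obtain ⟨k, hk1, hk2, hk3⟩ := exists_pair hxy
          have hIk : It X k := ⟨hk2, fun z a1 a2 => hI z (by linarith) (by linarith)⟩
          exact lt_of_lt_of_le (by positivity) (jump_It hIk hk1.le hk3.le)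
        · push Not at hI
          obtain ⟨z, hz1, hz2, hz⟩ := hI
          have hzo : ∃ ε > 0, Metric.ball z ε ⊆ Xᶜ :=
            Metric.isOpen_iff.1 h.comp.isClosed.isOpen_compl z hz
          obtain ⟨ε, hε, hball⟩ := hzo
          have hlt1 : x < z := lt_of_le_of_ne hz1 (fun e => hz (e ▸ hx))
          have hlt2 : z < y := lt_of_le_of_ne hz2 (fun e => hz (e ▸ hy))
          obtain ⟨k, hk1, hk2, hk3⟩ := exists_pair
            (show max x (z - ε) < z from max_lt hlt1 (by linarith))
          have hG : Gp X k := by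
            refine ⟨hk2, fun w a1 a2 => hball ?_⟩
            rw [Metric.mem_ball, Real.dist_eq, abs_lt]
            have := le_max_right x (z - ε)
            constructor <;> linarith
          obtain ⟨k', -, b1, b2, b3, b4⟩ := first_cut hx
            ⟨hG, lt_of_le_of_lt (le_max_left _ _) hk1, hk3.trans hlt2⟩
          have := jump_act hx hy b1 b2 b3 b4 (ha k')
          have := xi_pos X (k' + 1)
          linarith
      have hpx : ph X x = 0 := ph_zero ha
      have hpy := ph_nonneg h hy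
      unfold hm at heq
      linarith
    · obtain ⟨m, h1, h2, ⟨δ, hδ⟩, -, hinj, -⟩ := ph_tau h hx ha
      by_cases hr : rel X m x y
      · have hc := cls_const hx h2 ⟨hy, hr⟩
        unfold hm at heq
        rw [hc] at heq
        exact hxy.ne (hinj ⟨hx, rel_refl m x⟩ ⟨hy, hr⟩ (by linarith))
      · have : ∃ k < m, Gp X k ∧ x < pl k ∧ pr k < y := by
          unfold rel at hr
          push Not at hr
          obtain ⟨k, hk, hG, hor⟩ := hr
          refine ⟨k, hk, hG, ?_⟩
          rcases hor with ⟨a1, a2⟩ | ⟨a1, a2⟩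
          · linarith
          · refine ⟨?_, a2⟩
            rcases hG.side hx with h5 | h5
            · exact h5
            · linarith
        obtain ⟨k, hk, hsep⟩ := this
        obtain ⟨k', hk', b1, b2, b3, b4⟩ := first_cut hx hsep
        have hj := jump_act hx hy b1 b2 b3 b4 (h1 k' (by omega))
        have hxm := xi_anti X (show k' + 1 ≤ m by omega)
        have ht := tau_le (X := X) m δ
        have hpy := ph_nonneg h hy
        have := xi_pos X m
        unfold hm at heq
        rw [hδ] at heq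
        linarith
  intro x hx y hy hxy
  rcases lt_trichotomy x y with h1 | h1 | h1
  · exact absurd hxy (key x hx y hy h1)
  · exact h1
  · exact absurd hxy.symm (key y hy x hx h1)

lemma cls_nhds {m : ℕ} {x : ℝ} (hx : x ∈ X) : cls X m x ∈ 𝓝[X] x := by
  obtain ⟨ε, hε, h⟩ := rel_nhds X m
  rw [mem_nhdsWithin_iff_exists_mem_nhds_inter]
  refine ⟨Metric.ball x ε, Metric.ball_mem_nhds x hε, ?_⟩
  rintro y ⟨hy1, hy2⟩
  exact ⟨hy2, h y hy2 x hx (by rw [Metric.mem_ball, Real.dist_eq] at hy1; exact hy1)⟩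

/-- Continuity of the embedding. -/
lemma hm_cont (h : CP X) : ContinuousOn (hm X) X := by
  refine HH_cont.continuousOn.add ?_
  intro x hx
  by_cases ha : ∀ m, nonC X m x
  · show Tendsto (ph X) (𝓝[X] x) (𝓝 (ph X x))
    rw [ph_zero ha, Metric.tendsto_nhds]
    intro ε hε
    obtain ⟨n, hn⟩ : ∃ n, xi X n < ε := by
      have h1 : Tendsto (fun n : ℕ => xi X 0 * (1 / 1024 : ℝ) ^ n) atTop (𝓝 (xi X 0 * 0)) :=
        (tendsto_pow_atTop_nhds_zero_of_lt_one (by norm_num) (by norm_num)).const_mul _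
      rw [mul_zero] at h1
      obtain ⟨n, hn⟩ := (h1.eventually (gt_mem_nhds hε)).exists
      have := xi_add X 0 n
      rw [zero_add] at this
      exact ⟨n, by linarith⟩
    filter_upwards [cls_nhds (m := n) hx] with y hy
    have h1 := ph_small h hy.1 ((ha n).of_rel hy.2)
    have h2 := ph_nonneg h hy.1
    rw [Real.dist_eq, sub_zero, abs_of_nonneg h2]
    have := xi_pos X n
    linarith
  · obtain ⟨m, -, -, -, -, -, hc⟩ := ph_tau h hx ha
    have := hc x ⟨hx, rel_refl m x⟩
    exact this.mono_of_mem_nhdsWithin (cls_nhds hx)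

/-- A long interval of the image near the image of a point. -/
lemma near2 (h : CP X) {n : ℕ} {x : ℝ} (hx : x ∈ X) (hn : nonC X n x) :
    ∃ a b, a + 4 * xi X n ≤ b ∧ Icc a b ⊆ hm X '' X ∧ a - xi X n / 2 ≤ hm X x ∧
      hm X x ≤ b + xi X n / 2 := by
  obtain ⟨j, hj, hI, hr, h1, h2⟩ := near hx hn
  have hl := long_It hj hI
  have hp := ph_small h hx hn
  have hp0 := ph_nonneg h hx
  have hxp := xi_pos X n
  refine ⟨HH X (pl j), HH X (pr j), by linarith, ?_, ?_, ?_⟩
  · intro t ht
    obtain ⟨z, hz, rfl⟩ := intermediate_value_Icc hI.1.le HH_cont.continuousOn ht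
    exact ⟨z, hI.2 z hz.1 hz.2, hm_of_Icc hI hz.1 hz.2⟩
  · unfold hm
    rcases lt_or_ge x (pl j) with h5 | h5
    · have := h1 h5; linarith
    · have := HH_mono (X := X) h5; linarith
  · unfold hm
    rcases lt_or_ge (pr j) x with h5 | h5
    · have := h2 h5; linarith
    · have := HH_mono (X := X) h5; linarith

lemma tau_shift (m : ℕ) {δ ε : ℕ → Bool} (hag : ∀ j < m, δ j = ε j) :
    tau X 0 δ - tau X 0 ε = tau X m (fun j => δ (m + j)) - tau X m (fun j => ε (m + j)) := by
  have e : ∀ δ : ℕ → Bool, tau X 0 δ = ∑ j ∈ Finset.range m, bt (δ j) * xi X (0 + j)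
      + tau X m (fun j => δ (m + j)) := by
    intro δ
    unfold tau
    rw [← (tau_summable 0 δ).sum_add_tsum_nat_add m]
    congr 1
    refine tsum_congr fun j => ?_
    rw [add_comm j m, zero_add]
  rw [e δ, e ε]
  have : ∑ j ∈ Finset.range m, bt (δ j) * xi X (0 + j)
      = ∑ j ∈ Finset.range m, bt (ε j) * xi X (0 + j) :=
    Finset.sum_congr rfl fun j hj => by rw [hag j (Finset.mem_range.1 hj)]
  rw [this]; ring

/-- **Every point of the image lies in a translate of the subsum set inside the image.** -/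
theorem cover (h : CP X) {x : ℝ} (hx : x ∈ X) :
    ∃ ε : ℕ → Bool, ∀ δ : ℕ → Bool, hm X x + (tau X 0 δ - tau X 0 ε) ∈ hm X '' X := by
  classical
  have hn := fun n (hn : nonC X n x) => near2 h hx hn
  choose! a b hab hsub hlo hhi using hn
  have step : ∀ ε : ℕ → Bool, ∀ δ : ℕ → Bool, ∀ i, (∀ j < i, δ j = ε j) → δ i ≠ ε i →
      nonC X i x → (ε i = true ↔ (a i + b i) / 2 < hm X x) →
      hm X x + (tau X 0 δ - tau X 0 ε) ∈ hm X '' X := by
    intro ε δ i hag hd hni hε
    have hdiff := tau_diff (X := X) (m := 0) hag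
    rw [zero_add] at hdiff
    have hd' := abs_le.1 hdiff
    have h1 := hab i hni
    have h2 := hlo i hni
    have h3 := hhi i hni
    have hxp := xi_pos X i
    refine hsub i hni ?_
    cases hεi : ε i
    · have hδi : δ i = true := by
        cases hh : δ i
        · exact absurd (hh.trans hεi.symm) hd
        · rfl
      have hle : hm X x ≤ (a i + b i) / 2 := by
        by_contra hc
        push Not at hc
        have := hε.2 hc
        rw [hεi] at this; exact Bool.noConfusion this
      have e1 : bt (δ i) - bt (ε i) = 1 := by rw [hδi, hεi]; simp [bt]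
      rw [e1, one_mul] at hd'
      constructor <;> linarith [hd'.1, hd'.2]
    · have hδi : δ i = false := by
        cases hh : δ i
        · rfl
        · exact absurd (hh.trans hεi.symm) hd
      have hgt := hε.1 hεi
      have e1 : bt (δ i) - bt (ε i) = -1 := by rw [hδi, hεi]; simp [bt]
      rw [e1] at hd'
      constructor <;> linarith [hd'.1, hd'.2]
  by_cases ha : ∀ m, nonC X m x
  · refine ⟨fun n => decide ((a n + b n) / 2 < hm X x), fun δ => ?_⟩
    by_cases hδ : δ = fun n => decide ((a n + b n) / 2 < hm X x)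
    · rw [hδ, sub_self, add_zero]; exact ⟨x, hx, rfl⟩
    · obtain ⟨i, hi, hd⟩ := first_diff hδ
      exact step _ δ i hi hd (ha i) (by simp)
  · obtain ⟨m, h1, h2, ⟨δ₀, hδ₀⟩, h4, -⟩ := ph_tau h hx ha
    refine ⟨fun n => if n < m then decide ((a n + b n) / 2 < hm X x) else δ₀ (n - m),
      fun δ => ?_⟩
    by_cases hδ : ∀ j < m, δ j = (fun n => if n < m then decide ((a n + b n) / 2 < hm X x)
        else δ₀ (n - m)) j
    · rw [tau_shift m hδ]
      have e : (fun j => (fun n => if n < m then decide ((a n + b n) / 2 < hm X x)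
        else δ₀ (n - m)) (m + j)) = δ₀ := by
        ext j
        simp
      rw [e, ← hδ₀]
      obtain ⟨y, hy, hyδ⟩ := h4 (fun j => δ (m + j))
      refine ⟨y, hy.1, ?_⟩
      unfold hm
      rw [hyδ, cls_const hx h2 hy]
      ring
    · push Not at hδ
      obtain ⟨j, hj, hjd⟩ := hδ
      have hne : δ ≠ fun n => if n < m then decide ((a n + b n) / 2 < hm X x)
        else δ₀ (n - m) := fun e => hjd (congrFun e j)
      obtain ⟨i, hi, hd⟩ := first_diff hne
      have him : i < m := by
        by_contra hc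
        exact hjd (hi j (by omega))
      refine step _ δ i hi hd (h1 i him) ?_
      simp only [him, if_true]
      simp

end Pool.Agent.Q68.SC
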