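import Pool.Agent.Q68.SC.Emb
open Set Filter Topology
open Pool.Agent.H812R3.CantorChar (Good)
noncomputable section
namespace Pool.Agent.Q68.SC

variable {X : Set ℝ}

/-- The digit as a real number. -/
def bt (b : Bool) : ℝ := if b then 1 else 0

lemma bt_nonneg (b : Bool) : 0 ≤ bt b := by unfold bt; split_ifs <;> norm_num
lemma bt_le (b : Bool) : bt b ≤ 1 := by unfold bt; split_ifs <;> norm_num

/-- The subsums of the scales from `m` on. -/
def tau (X : Set ℝ) (m : ℕ) (δ : ℕ → Bool) : ℝ := ∑' j, bt (δ j) * xi X (m + j)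

lemma tau_summable (m : ℕ) (δ : ℕ → Bool) : Summable (fun j => bt (δ j) * xi X (m + j)) :=
  Summable.of_nonneg_of_le (fun _ => mul_nonneg (bt_nonneg _) (xi_pos X _).le)
    (fun _ => mul_le_of_le_one_left (xi_pos X _).le (bt_le _)) (xi_summable X m)

lemma tau_nonneg (m : ℕ) (δ : ℕ → Bool) : 0 ≤ tau X m δ :=
  tsum_nonneg fun _ => mul_nonneg (bt_nonneg _) (xi_pos X _).le

lemma tau_le (m : ℕ) (δ : ℕ → Bool) : tau X m δ ≤ 2 * xi X m :=
  ((tau_summable m δ).tsum_le_tsum
    (fun _ => mul_le_of_le_one_left (xi_pos X _).le (bt_le _)) (xi_summable X m)).trans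
    (xi_total X m)

lemma tau_cont (m : ℕ) : Continuous (tau X m) := by
  refine continuous_tsum (u := fun j => xi X (m + j)) (fun j => ?_) (xi_summable X m)
    fun j δ => ?_
  · refine Continuous.mul ?_ continuous_const
    exact (continuous_of_discreteTopology (f := bt)).comp (continuous_apply j)
  · rw [Real.norm_of_nonneg (mul_nonneg (bt_nonneg _) (xi_pos X _).le)]
    exact mul_le_of_le_one_left (xi_pos X _).le (bt_le _)

lemma tau_diff {m i : ℕ} {δ ε : ℕ → Bool} (h : ∀ j < i, δ j = ε j) :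
    |tau X m δ - tau X m ε - (bt (δ i) - bt (ε i)) * xi X (m + i)| ≤ xi X (m + i) / 512 := by
  have e1 : tau X m δ - tau X m ε = ∑' j, (bt (δ j) - bt (ε j)) * xi X (m + j) := by
    unfold tau
    rw [← (tau_summable m δ).tsum_sub (tau_summable m ε)]
    congr 1; ext j; ring
  have hs : Summable (fun j => (bt (δ j) - bt (ε j)) * xi X (m + j)) := by
    refine ((tau_summable (X := X) m δ).sub (tau_summable (X := X) m ε)).congr fun j => ?_
    ring
  rw [e1, ← hs.sum_add_tsum_nat_add (i + 1), Finset.sum_range_succ]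
  have z : ∑ j ∈ Finset.range i, (bt (δ j) - bt (ε j)) * xi X (m + j) = 0 :=
    Finset.sum_eq_zero fun j hj => by rw [h j (Finset.mem_range.1 hj)]; ring
  rw [z, zero_add, add_sub_cancel_left]
  have hb : ∀ j, |bt (δ j) - bt (ε j)| ≤ 1 := fun j => by
    rw [abs_le]
    constructor <;> linarith [bt_nonneg (δ j), bt_nonneg (ε j), bt_le (δ j), bt_le (ε j)]
  have e2 : ∀ j, xi X (m + (j + (i + 1))) = xi X (m + i + 1 + j) := fun j => by
    congr 1; ring
  have hn : ∀ j, ‖(bt (δ (j + (i + 1))) - bt (ε (j + (i + 1)))) * xi X (m + (j + (i + 1)))‖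
      ≤ xi X (m + i + 1 + j) := by
    intro j
    rw [norm_mul, Real.norm_of_nonneg (xi_pos X _).le, e2]
    exact mul_le_of_le_one_left (xi_pos X _).le (hb _)
  exact (tsum_of_norm_bounded (xi_summable X (m + i + 1)).hasSum hn).trans (xi_tail X (m + i))

lemma first_diff {δ ε : ℕ → Bool} (h : δ ≠ ε) : ∃ i, (∀ j < i, δ j = ε j) ∧ δ i ≠ ε i := by
  classical
  have hex : ∃ i, δ i ≠ ε i := by
    by_contra hc
    push Not at hc
    exact h (funext hc)
  refine ⟨Nat.find hex, fun j hj => ?_, Nat.find_spec hex⟩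
  by_contra hc
  exact Nat.find_min hex hj hc

lemma tau_inj (m : ℕ) : Function.Injective (tau X m) := by
  intro δ ε h
  by_contra hne
  obtain ⟨i, hi, hd⟩ := first_diff hne
  have := tau_diff (X := X) (m := m) hi
  rw [h, sub_self, zero_sub, abs_neg, abs_mul, abs_of_pos (xi_pos X _)] at this
  have h1 : |bt (δ i) - bt (ε i)| = 1 := by
    unfold bt
    cases h3 : δ i <;> cases h4 : ε i
    · exact absurd (h3.trans h4.symm) hd
    · simp
    · simp
    · exact absurd (h3.trans h4.symm) hd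
  rw [h1, one_mul] at this
  have := xi_pos X (m + i)
  linarith

/-- Cantor sets in the line are images of the subsum sets. -/
lemma exists_map (X : Set ℝ) (Q : Set ℝ) (m : ℕ) : ∃ f : ℝ → ℝ, Good Q →
    (ContinuousOn f Q ∧ InjOn f Q ∧ f '' Q = range (tau X m)) := by
  by_cases hQ : Good Q
  · obtain ⟨e⟩ := hQ.homeo
    let e2 : Q ≃ₜ (ℕ → Bool) := e.trans cantorSetHomeomorphNatToBool
    classical
    refine ⟨fun x => if h : x ∈ Q then tau X m (e2 ⟨x, h⟩) else 0, fun _ => ⟨?_, ?_, ?_⟩⟩
    · rw [continuousOn_iff_continuous_domRestrict]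
      have : Q.domRestrict (fun x => if h : x ∈ Q then tau X m (e2 ⟨x, h⟩) else 0)
          = fun x : Q => tau X m (e2 x) := by
        ext x
        show (if h : (x : ℝ) ∈ Q then tau X m (e2 ⟨x, h⟩) else 0) = _
        rw [dif_pos x.2]
      rw [this]
      exact (tau_cont m).comp e2.continuous
    · intro x hx y hy hxy
      simp only at hxy
      rw [dif_pos hx, dif_pos hy] at hxy
      have := e2.injective (tau_inj m hxy)
      exact congrArg Subtype.val this
    · ext t
      constructor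
      · rintro ⟨x, hx, rfl⟩
        simp only
        rw [dif_pos hx]
        exact ⟨_, rfl⟩
      · rintro ⟨δ, rfl⟩
        refine ⟨e2.symm δ, (e2.symm δ).2, ?_⟩
        simp only
        rw [dif_pos (e2.symm δ).2]
        simp
  · exact ⟨fun _ => 0, fun h => absurd h hQ⟩

/-- The chosen map of a Cantor piece. -/
def fm (X : Set ℝ) (Q : Set ℝ) (m : ℕ) : ℝ → ℝ := Classical.choose (exists_map X Q m)

lemma fm_spec {Q : Set ℝ} (hQ : Good Q) (m : ℕ) :
    ContinuousOn (fm X Q m) Q ∧ InjOn (fm X Q m) Q ∧ fm X Q m '' Q = range (tau X m) :=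
  Classical.choose_spec (exists_map X Q m) hQ

open Classical in
/-- The correction on the Cantor pieces. -/
def ph (X : Set ℝ) (x : ℝ) : ℝ :=
  if h : ∃ m, ¬ nonC X m x then fm X (cls X (Nat.find h) x) (Nat.find h) x else 0

/-- The embedding. -/
def hm (X : Set ℝ) (x : ℝ) : ℝ := HH X x + ph X x

lemma ph_zero {x : ℝ} (h : ∀ m, nonC X m x) : ph X x = 0 := by
  unfold ph
  rw [dif_neg]
  push Not
  exact h

/-- The level at which a point falls into a Cantor piece. -/
lemma ph_spec {x : ℝ} (h : ¬ ∀ m, nonC X m x) : ∃ m, (∀ k < m, nonC X k x) ∧ ¬ nonC X m x ∧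
    ∀ y ∈ cls X m x, ph X y = fm X (cls X m x) m y := by
  classical
  push Not at h
  refine ⟨Nat.find h, fun k hk => ?_, Nat.find_spec h, fun y hy => ?_⟩
  · by_contra hc; exact Nat.find_min h hk hc
  · have h1 : ∀ k ≤ Nat.find h, (nonC X k x ↔ nonC X k y) := fun k hk =>
      ⟨fun h5 => h5.of_rel (hy.2.mono hk), fun h5 => h5.of_rel (hy.2.mono hk).symm⟩
    have hex : ∃ m, ¬ nonC X m y := ⟨Nat.find h, fun h5 => Nat.find_spec h ((h1 _ le_rfl).2 h5)⟩
    have e : Nat.find hex = Nat.find h := by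
      refine (Nat.find_eq_iff hex).2 ⟨fun h5 => Nat.find_spec h ((h1 _ le_rfl).2 h5),
        fun k hk => ?_⟩
      push Not
      have : nonC X k x := by by_contra hc; exact Nat.find_min h hk hc
      exact (h1 k hk.le).1 this
    have e2 : cls X (Nat.find h) y = cls X (Nat.find h) x := by
      ext z
      constructor
      · rintro ⟨hz, hr⟩; exact ⟨hz, hy.2.trans hr⟩
      · rintro ⟨hz, hr⟩; exact ⟨hz, hy.2.symm.trans hr⟩
    unfold ph
    rw [dif_pos hex, e, e2]

end Pool.Agent.Q68.SC
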